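import Pool.Agent.H108.Ram.Off

/-!
# Upper bounds for two-colour Ramsey numbers

`R(k,l) < 3.11 ^ sqrt (k l)` for all pairs `k, l ≥ 1` with `k + l` large; in particular
`R(k,k) < 3.11 ^ k` for all large `k`. (The bound of Erdős and Szekeres gives `4 ^ sqrt (k l)`.)
-/

set_option autoImplicit false

namespace Pool.Agent.Results.MP_28724c_co.DiagUpper311

open H110R2

/-- Every colouring of the edges of the complete graph on `n` vertices with two colours (the edges of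
`G` are red, the edges of its complement are blue) contains a red `K_k` or a blue `K_l`. -/
def Arrows (n k l : ℕ) : Prop :=
  ∀ G : SimpleGraph (Fin n), (∃ s : Finset (Fin n), G.IsNClique k s) ∨
    (∃ s : Finset (Fin n), Gᶜ.IsNClique l s)

/-- The Ramsey number `R(k,l)`: the least positive `n` with `Arrows n k l`. -/
noncomputable def R (k l : ℕ) : ℕ := sInf {n : ℕ | 0 < n ∧ Arrows n k l}

/-- **Ramsey numbers.** (1) `R(k,k) < 3.11 ^ k` for all sufficiently large `k`, and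
`limsup log R(k,k) / k ≤ log 3.11`. (2) `R(k,l) < 3.11 ^ sqrt (k l)` for all `k, l ≥ 1` such that
`k + l` is sufficiently large; the set defining `R(k,l)` is non-empty, so that `R(k,l)` has the
Ramsey property. -/
theorem result :
    ((∃ K : ℕ, ∀ k : ℕ, K ≤ k → (R k k : ℝ) < (3.11 : ℝ) ^ k) ∧
      Filter.limsup (fun k : ℕ => Real.log (R k k) / k) Filter.atTop ≤ Real.log 3.11) ∧
    (∃ K : ℕ, ∀ k l : ℕ, 1 ≤ k → 1 ≤ l → K ≤ k + l →
      (0 < R k l ∧ Arrows (R k l) k l) ∧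
        (R k l : ℝ) < (3.11 : ℝ) ^ Real.sqrt ((k : ℝ) * l)) := by
  have hmain : ∃ K : ℕ, ∀ k l : ℕ, 1 ≤ k → 1 ≤ l → K ≤ k + l →
      (0 < R k l ∧ Arrows (R k l) k l) ∧
        (R k l : ℝ) < (3.11 : ℝ) ^ Real.sqrt ((k : ℝ) * l) := by
    obtain ⟨K, hK⟩ := Pool.Agent.H108.Ram.off
    refine ⟨2 * K, fun k l hk hl hkl => ?_⟩
    have hx1 : (1 : ℝ) < (3.11 : ℝ) ^ Real.sqrt ((k : ℝ) * l) := by
      apply Real.one_lt_rpow (by norm_num)
      apply Real.sqrt_pos.2
      have h1 : (0 : ℝ) < k := by exact_mod_cast hk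
      have h2 : (0 : ℝ) < l := by exact_mod_cast hl
      positivity
    have hall : ∀ (V : Type) [DecidableEq V] (G : SimpleGraph V) (Z : Finset V),
        NoCl G k Z → NoCl Gᶜ l Z →
          (Z.card : ℝ) + 1 < (3.11 : ℝ) ^ Real.sqrt ((k : ℝ) * l) := by
      intro V _ G Z h1 h2
      rcases le_total l k with h | h
      · exact (hK k l hl h (by omega) V G Z).1 h1 h2
      · rw [mul_comm (k : ℝ) l]
        exact (hK l k hk h (by omega) V G Z).2 h1 h2
    set x := (3.11 : ℝ) ^ Real.sqrt ((k : ℝ) * l) with hx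
    have hc1 : 1 < ⌈x⌉₊ := by
      rw [Nat.lt_ceil]
      exact_mod_cast hx1
    have hn0 : 0 < ⌈x⌉₊ - 1 := by omega
    have hnx : ((⌈x⌉₊ - 1 : ℕ) : ℝ) < x := by
      rw [Nat.cast_sub hc1.le]
      have := Nat.ceil_lt_add_one (show 0 ≤ x by linarith)
      push_cast
      linarith
    have harr : Arrows (⌈x⌉₊ - 1) k l := by
      intro G
      by_contra hcon
      push Not at hcon
      obtain ⟨h1, h2⟩ := hcon
      have h3 := hall (Fin (⌈x⌉₊ - 1)) G Finset.univ (fun t _ => h1 t) (fun t _ => h2 t)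
      rw [Finset.card_univ, Fintype.card_fin, Nat.cast_sub hc1.le] at h3
      have h4 := Nat.le_ceil x
      push_cast at h3
      linarith
    have hmem : ⌈x⌉₊ - 1 ∈ {n : ℕ | 0 < n ∧ Arrows n k l} := ⟨hn0, harr⟩
    have h1 : R k l ∈ {n : ℕ | 0 < n ∧ Arrows n k l} := Nat.sInf_mem ⟨_, hmem⟩
    have h2 : R k l ≤ ⌈x⌉₊ - 1 := Nat.sInf_le hmem
    refine ⟨h1, lt_of_le_of_lt ?_ hnx⟩
    exact_mod_cast h2
  have hdiag : ∃ K : ℕ, ∀ k : ℕ, K ≤ k → (R k k : ℝ) < (3.11 : ℝ) ^ k ∧ 0 < R k k := by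
    obtain ⟨K, hK⟩ := hmain
    refine ⟨K + 1, fun k hk => ?_⟩
    obtain ⟨⟨h0, -⟩, h⟩ := hK k k (by omega) (by omega) (by omega)
    rw [Real.sqrt_mul_self (Nat.cast_nonneg k), Real.rpow_natCast] at h
    exact ⟨h, h0⟩
  refine ⟨⟨?_, ?_⟩, hmain⟩
  · obtain ⟨K, hK⟩ := hdiag
    exact ⟨K, fun k hk => (hK k hk).1⟩
  obtain ⟨K, hK⟩ := hdiag
  have hnn : ∀ᶠ k : ℕ in Filter.atTop, (0 : ℝ) ≤ Real.log (R k k) / k := by
    refine Filter.Eventually.of_forall fun k => div_nonneg ?_ (Nat.cast_nonneg k)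
    exact Real.log_natCast_nonneg _
  refine Filter.limsup_le_of_le ?_ ?_
  · exact Filter.IsBoundedUnder.isCoboundedUnder_le ⟨0, Filter.eventually_map.mpr hnn⟩
  · filter_upwards [Filter.eventually_ge_atTop (max K 1)] with k hk
    have hk1 : 1 ≤ k := le_trans (le_max_right _ _) hk
    obtain ⟨h2, h1⟩ := hK k (le_trans (le_max_left _ _) hk)
    have hkpos : (0 : ℝ) < k := by exact_mod_cast hk1
    have hRpos : (0 : ℝ) < R k k := by exact_mod_cast h1
    rw [div_le_iff₀ hkpos, mul_comm, ← Real.log_pow]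
    exact Real.log_le_log hRpos h2.le

end Pool.Agent.Results.MP_28724c_co.DiagUpper311
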