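import Pool.Agent.H136.GB.FT

set_option autoImplicit false

namespace Pool.Agent.Results.MP_28724c_co.GraphonBarrier

open MeasureTheory Finset Filter Pool.Agent.H.MP_eaf82e_pr Pool.Agent.H136.GB

open Classical in
/-- The probability that the `W`-random graph on the vertices `0, …, n - 1` has the property `E`:
the types `x i` are independent and uniform in `[0, 1]` and, given the types, the pairs
`i < j` are edges independently with the probabilities `W (x i) (x j)`. -/
noncomputable def prob (n : ℕ) (W : ℝ → ℝ → ℝ) (E : SimpleGraph (Fin n) → Prop) : ENNReal :=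
  ∫⁻ x in Set.univ.pi (fun _ : Fin n => Set.Icc (0 : ℝ) 1),
    ∑ G : SimpleGraph (Fin n), (if E G then ∏ i : Fin n, ∏ j : Fin n,
      (if i < j then (if G.Adj i j then ENNReal.ofReal (W (x i) (x j))
        else ENNReal.ofReal (1 - W (x i) (x j))) else 1) else 0)

/-- On the unit square, `W` is within `δ` in `L¹` of a step function with at most `N` steps
(the parts are the fibres of `q`, and `c` is the matrix of the values). -/
def Near (W : ℝ → ℝ → ℝ) (δ N : ℝ) : Prop :=
  ∃ (k : ℕ) (q : ℝ → Fin k) (c : Fin k → Fin k → ℝ), Measurable q ∧ (k : ℝ) ≤ N ∧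
    ∫ z in Set.Icc (0 : ℝ) 1 ×ˢ Set.Icc (0 : ℝ) 1, |W z.1 z.2 - c (q z.1) (q z.2)| ≤ δ

lemma prob_ge {n : ℕ} {W : ℝ → ℝ → ℝ} (h0 : ∀ x y, 0 ≤ W x y) (h1 : ∀ x y, W x y ≤ 1)
    (E : SimpleGraph (Fin n) → Prop) (Q : (Ed n → Bool) → Prop)
    (h : ∀ G : SimpleGraph (Fin n), Q (om G) → E G) : Prb W n Q ≤ prob n W E := by
  classical
  have hmu : volume.restrict (Set.univ.pi (fun _ : Fin n => Set.Icc (0:ℝ) 1)) = mun n := by
    rw [volume_pi, Measure.restrict_pi_pi]; rfl
  unfold prob Prb
  rw [hmu]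
  refine lintegral_mono fun x => ?_
  simp only []
  have e1 := (om_bij n).sum_comp (fun ω : Ed n → Bool =>
    ENNReal.ofReal (wt (px W x) ω) * idc (Q ω))
  rw [← e1]
  refine Finset.sum_le_sum fun G _ => ?_
  have e2 := prod_eq (px W x) (fun e => h0 _ _) (fun e => h1 _ _) G
    (fun i j => W (x i) (x j)) (fun e => rfl)
  by_cases hQ : Q (om G)
  · rw [idc_pos hQ, mul_one, if_pos (h G hQ), ← e2]
  · rw [idc_neg hQ, mul_zero]
    exact zero_le

/-- **Barrier for `W`-random colourings.** For all `0 < p < 1` and `ε > 0` there are `δ > 0` and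
`n₀` such that for every `n ≥ n₀` and every kernel `W` within `δ` in `L¹` of a step function with
at most `n ^ δ` steps, the `W`-random graph on `n` vertices has, with probability at least
`1 - n ^ (-δ)`, a clique with at least `(2 - ε) log_{1/p} n` vertices or an independent set with
at least `(2 - ε) log_{1/(1-p)} n` vertices. -/
theorem result : ∀ p ε : ℝ, 0 < p → p < 1 → 0 < ε → ∃ δ : ℝ, 0 < δ ∧ ∃ n₀ : ℕ, ∀ n : ℕ, n₀ ≤ n →
    ∀ W : ℝ → ℝ → ℝ, Measurable (Function.uncurry W) →
    (∀ x ∈ Set.Icc (0 : ℝ) 1, ∀ y ∈ Set.Icc (0 : ℝ) 1, 0 ≤ W x y ∧ W x y ≤ 1) →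
    Near W δ ((n : ℝ) ^ δ) →
    ENNReal.ofReal (1 - (n : ℝ) ^ (-δ)) ≤ prob n W (fun G =>
      (2 - ε) * Real.logb (1 / p) n ≤ (G.cliqueNum : ℝ) ∨
      (2 - ε) * Real.logb (1 / (1 - p)) n ≤ (G.indepNum : ℝ)) := by
  intro p ε hp0 hp1 hε
  obtain ⟨ε', hε'⟩ : ∃ ε' : ℝ, ε' = min ε (1 / 2) := ⟨_, rfl⟩
  have hε'0 : 0 < ε' := by rw [hε']; exact lt_min hε (by norm_num)
  have hε'1 : ε' < 1 := by rw [hε']; exact lt_of_le_of_lt (min_le_right _ _) (by norm_num)
  have hε'2 : ε' ≤ ε := by rw [hε']; exact min_le_left _ _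
  obtain ⟨δ, hδ, H⟩ := main hp0 hp1 hε'0 hε'1
  obtain ⟨n₀, hn₀⟩ := eventually_atTop.mp (H.and (eventually_ge_atTop 1))
  refine ⟨δ, hδ, n₀, fun n hn W hW hW01 hnear => ?_⟩
  obtain ⟨Hn, hn1⟩ := hn₀ n hn
  obtain ⟨k, q, c, hq, hk, hint⟩ := hnear
  have hx0 : 0 ≤ Real.log n := Real.log_nonneg (by exact_mod_cast hn1)
  have hlp : 0 < -Real.log p := by
    have := Real.log_neg hp0 hp1
    linarith
  have hlq : 0 < -Real.log (1 - p) := by
    have := Real.log_neg (show 0 < 1 - p by linarith) (by linarith)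
    linarith
  -- clamping
  let V : ℝ → ℝ → ℝ := fun x y => max 0 (min 1 (W x y))
  have hV : Measurable (Function.uncurry V) := by
    have : Function.uncurry V = fun z => max 0 (min 1 (Function.uncurry W z)) := rfl
    rw [this]
    exact measurable_const.max (measurable_const.min hW)
  have hV0 : ∀ x y, 0 ≤ V x y := fun x y => le_max_left _ _
  have hV1 : ∀ x y, V x y ≤ 1 := fun x y => max_le zero_le_one (min_le_left _ _)
  have hVW : ∀ x ∈ Set.Icc (0 : ℝ) 1, ∀ y ∈ Set.Icc (0 : ℝ) 1, V x y = W x y := by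
    intro x hx y hy
    have := hW01 x hx y hy
    simp only [V]
    rw [min_eq_right this.2, max_eq_right this.1]
  have hBV : B (er V q c) lam lam ≤ δ := by
    refine le_trans (le_of_eq ?_) hint
    unfold B lam
    rw [Measure.prod_restrict, ← Measure.volume_eq_prod]
    refine setIntegral_congr_fun (measurableSet_Icc.prod measurableSet_Icc) ?_
    intro z hz
    simp only [er]
    rw [hVW z.1 hz.1 z.2 hz.2]
  have key := Hn V hV hV0 hV1 k q c hq hk hBV
  have hprob : ∀ E : SimpleGraph (Fin n) → Prop, prob n V E = prob n W E := by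
    intro E
    unfold prob
    refine setLIntegral_congr_fun (MeasurableSet.univ_pi fun _ => measurableSet_Icc) ?_
    intro x hx
    simp only []
    refine Finset.sum_congr rfl fun G _ => ?_
    have : ∀ i j, V (x i) (x j) = W (x i) (x j) := fun i j =>
      hVW _ (hx i (Set.mem_univ _)) _ (hx j (Set.mem_univ _))
    simp only [this]
  rw [← hprob]
  refine key.trans (prob_ge hV0 hV1 _ _ ?_)
  rintro G ⟨S, ⟨hS, hR⟩ | ⟨hS, hR⟩⟩
  · left
    have hcl : G.IsClique (S : Set (Fin n)) := by
      have h3 : ∀ u ∈ S, ∀ v ∈ S, u < v → G.Adj u v := by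
        intro u hu v hv huv
        have := hR ⟨(u, v), huv⟩ (by simp [ES, hu, hv])
        simpa [om] using this
      intro u hu v hv huv
      rcases lt_or_gt_of_ne huv with h4 | h4
      · exact h3 u hu v hv h4
      · exact (h3 v hv u hu h4).symm
    have hcard : (S.card : ℝ) ≤ G.cliqueNum := by
      exact_mod_cast hcl.card_le_cliqueNum
    refine le_trans ?_ hcard
    refine le_trans ?_ hS
    rw [Real.logb, one_div, Real.log_inv, mul_div_assoc]
    have : 0 ≤ Real.log n / -Real.log p := by positivity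
    exact mul_le_mul_of_nonneg_right (by linarith) this
  · right
    have hcl : G.IsIndepSet (S : Set (Fin n)) := by
      have h3 : ∀ u ∈ S, ∀ v ∈ S, u < v → ¬ G.Adj u v := by
        intro u hu v hv huv
        have := hR ⟨(u, v), huv⟩ (by simp [ES, hu, hv])
        simpa [om] using this
      intro u hu v hv huv
      rcases lt_or_gt_of_ne huv with h4 | h4
      · exact h3 u hu v hv h4
      · exact fun h5 => h3 v hv u hu h4 h5.symm
    have hcard : (S.card : ℝ) ≤ G.indepNum := by
      exact_mod_cast hcl.card_le_indepNum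
    refine le_trans ?_ hcard
    refine le_trans ?_ hS
    rw [Real.logb, one_div, Real.log_inv, mul_div_assoc]
    have : 0 ≤ Real.log n / -Real.log (1 - p) := by positivity
    exact mul_le_mul_of_nonneg_right (by linarith) this

end Pool.Agent.Results.MP_28724c_co.GraphonBarrier
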