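import Pool.Agent.H40.SP.Low

/-!
# Ramsey numbers of unit ball graphs

A colouring of the edges of a complete graph with the colours red and blue is a graph `G` (the red
edges).  Here `G` is a unit ball graph in `ℝ ^ d`: the vertices are points and the red edges are
the pairs at distance at most one.  The order of magnitude of the logarithm of the largest order of
such a colouring without monochromatic `K_k` is determined for all `d` and `k`.
-/

namespace Pool.Agent.Results.MP_28724c_co.Sphericity

open Pool.Agent.H40.SP

/-- Let `m = min d (k ^ 2)` and `Psi d k = log k + √ (m * log (4 * k ^ 2 / m))`.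

* A unit ball graph in `ℝ ^ d` without clique and without independent set of size `k` has at most
  `exp (110 * Psi d k)` vertices.
* There is such a graph with at least `exp (c * Psi d k)` vertices, `c = exp (-2790) / 128`.
* If such a graph has at least `exp (θ * k)` vertices, then `d` is at least a constant (depending
  on `θ`) times `k ^ 2`. -/
theorem result :
    (∀ d k : ℕ, 1 ≤ d → 3 ≤ k →
      (∀ (n : ℕ) (G : SimpleGraph (Fin n)), BallGraph G d → NoMono G k →
        Real.log n ≤ 110 * Psi d k) ∧
      ∃ (n : ℕ) (G : SimpleGraph (Fin n)), BallGraph G d ∧ NoMono G k ∧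
        Real.exp (-2790) / 128 * Psi d k ≤ Real.log n) ∧
    (∀ θ : ℝ, 0 < θ → ∀ d k : ℕ, 1 ≤ d → 3 ≤ k → ∀ (n : ℕ) (G : SimpleGraph (Fin n)),
      BallGraph G d → NoMono G k → Real.exp (θ * k) ≤ n →
      θ ^ 4 / (256 * 110 ^ 4) * (k : ℝ) ^ 2 ≤ d) :=
  ⟨fun d k hd hk => ⟨fun n G hB hM => upper_final d k hd hk n G hB hM, lower d k hd hk⟩,
    fun _ hθ d k hd hk n G hB hM hn => expo hθ d k hd hk n G hB hM hn⟩

end Pool.Agent.Results.MP_28724c_co.Sphericity
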