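import Pool.Agent.H700.RU.Fin

set_option autoImplicit false

/-!
# Diagonal Ramsey colourings whose red graph is a union of `m` graphs of VC-dimension at most `d`

A two-colouring of the edges of a complete graph is a graph `G` (red edges) together with its
complement (blue edges). The complexity of the red graph is measured by two parameters: it is a
union of `m` graphs (possibly exponentially many in `k`) of VC-dimension at most `d`. For `m = 1`
this is the VC-dimension of the colouring; every graph of VC-dimension at most one, for instance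
every complete bipartite graph, can be used, so for `d = 1` the parameter `m` is at most the biclique
cover number, whose logarithm is the nondeterministic communication complexity. (The VC-dimension of
a union of `m` graphs of VC-dimension at most `d` can be as large as `c d m`, so nothing useful about
large `m` follows from bounds in terms of the VC-dimension of `G`.)

The theorem says that the true measure of such colourings is `d log m`: it is the order of magnitude
of the logarithm of the corresponding Ramsey numbers as soon as `m` and `d` are larger than some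
powers of `k`, and the exponential growth of the Ramsey numbers appears exactly when `d log m` is of
order `k`.

Outline. Upper bound: in a set `A` of vertices without blue `K_k` the red density is at least
`1 / (8 k)`, so one of the `m` graphs has density `1 / (8 k m)` on `A`; by a packing theorem there is
a cluster of `A / (k m) ^ O(d)` vertices with nearly the same neighbourhoods in this graph, and every
red `K_h` in the cluster has a common red neighbourhood of size `A / O(k m)`. So one pays
`O(d log (k m))` once, and then only `O(log (k m))` for `h` vertices of the red clique; this is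
iterated over the scales `h = (d + 1) ^ i`. Lower bound: the edges of an arbitrary graph on `m ^ a`
vertices are distributed at random among `m` graphs; with positive probability all of them have
VC-dimension at most `6 a`.
-/

namespace Pool.Agent.Results.MP_28724c_co.UnionsOfBoundedVC

open Real

/-- The colouring of the pairs of elements of `V` with colour classes `G` and `Gᶜ` has no
monochromatic `K_k`. -/
def NoMono {V : Type} (G : SimpleGraph V) (k : ℕ) : Prop :=
  G.CliqueFree k ∧ Gᶜ.CliqueFree k

/-- The VC-dimension of the rows of the relation `R` is at most `d`: if for every `T ⊆ S` there is a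
`v` such that the elements of `S` to which `v` is related are exactly those of `T`, then `S` has at
most `d` elements. -/
def VCLe {V : Type} (R : V → V → Prop) (d : ℕ) : Prop :=
  ∀ S : Finset V, (∀ T ⊆ S, ∃ v, ∀ x ∈ S, (R v x ↔ x ∈ T)) → S.card ≤ d

/-- The graph `G` is the union of `m` graphs of VC-dimension at most `d`. -/
def UnionVC {V : Type} (G : SimpleGraph V) (m d : ℕ) : Prop :=
  ∃ H : Fin m → SimpleGraph V, (∀ i, VCLe (H i).Adj d) ∧ ∀ x y, G.Adj x y ↔ ∃ i, (H i).Adj x y

/-- The probability that `x` and `y` are related, for a uniformly chosen element of `Ω`. -/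
noncomputable def prob {V Ω : Type} [Fintype Ω] (R : Ω → V → V → Prop) (x y : V) : ℝ :=
  ({ω | R ω x y}.ncard : ℝ) / Fintype.card Ω

/-- A more general form of `UnionVC`: there is a random relation (uniformly chosen from a finite
family) which has VC-dimension at most `d`, relates only red pairs (it is arbitrary on the diagonal)
and relates every given red pair, in one of the two orders, with probability at least `1 / m`. -/
def FracVC {V : Type} (G : SimpleGraph V) (m : ℝ) (d : ℕ) : Prop :=
  ∃ (Ω : Type) (_ : Fintype Ω) (_ : Nonempty Ω) (R : Ω → V → V → Prop),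
    (∀ ω, VCLe (R ω) d) ∧ (∀ ω x y, x ≠ y → R ω x y → G.Adj x y) ∧
    ∀ x y, G.Adj x y → 1 / m ≤ prob R x y ∨ 1 / m ≤ prob R y x

/-- The largest number of vertices of a colouring without monochromatic `K_k` whose red graph is a
union of `m` graphs of VC-dimension at most `d`. -/
noncomputable def maxOrder (m d k : ℕ) : ℕ :=
  sSup {n : ℕ | ∃ G : SimpleGraph (Fin n), NoMono G k ∧ UnionVC G m d}

/-- The diagonal Ramsey number `R(k,k)`. -/
noncomputable def ramsey (k : ℕ) : ℕ :=
  sInf {n : ℕ | ∀ G : SimpleGraph (Fin n), ¬ NoMono G k}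

theorem ramsey_eq (k : ℕ) : ramsey k = Pool.Agent.H818R2.Ram.R k k := by
  unfold ramsey Pool.Agent.H818R2.Ram.R Pool.Agent.H818R2.Ram.Arrows
  congr 1
  ext n
  simp only [Set.mem_ofPred_eq]
  apply forall_congr'
  intro G
  unfold NoMono SimpleGraph.CliqueFree
  constructor
  · intro h
    by_contra hcon
    push Not at hcon
    exact h hcon
  · rintro (⟨s, hs⟩ | ⟨s, hs⟩) ⟨h1, h2⟩
    · exact h1 s hs
    · exact h2 s hs

/-- **Main result.** -/
theorem result :
    -- (1) upper bound, with `D = d log₂ (m k)`:
    -- `log₂ n ≤ 153 D (1 + log₂ (2 + k / D) / log₂ (d + 1))`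
    (∀ (V : Type) [Fintype V] [Nonempty V] (G : SimpleGraph V) (k d : ℕ) (m : ℝ),
      2 ≤ k → 1 ≤ d → 1 ≤ m → NoMono G k → FracVC G m d →
      logb 2 (Fintype.card V) ≤ 153 * (d * logb 2 (m * k)) *
        (1 + logb 2 (2 + k / (d * logb 2 (m * k))) / logb 2 (d + 1))) ∧
    (∀ (V : Type) (G : SimpleGraph V) (m d : ℕ), 1 ≤ m → UnionVC G m d → FracVC G m d) ∧
    -- (2) every graph on at most `m ^ a` vertices is a union of `m` graphs of VC-dimension at
    -- most `6 a`
    (∀ (V : Type) [Fintype V] (G : SimpleGraph V) (m a : ℕ), 1 ≤ m → 1 ≤ a →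
      Fintype.card V ≤ m ^ a → UnionVC G m (6 * a)) ∧
    -- (3) the order of magnitude of the restricted Ramsey numbers is `d log m` for
    -- `m, d ≥ k ^ ε`, `d log₂ m ≤ k`
    (∀ (ε : ℝ) (m d k : ℕ), 0 < ε → 2 ≤ m → 6 ≤ d → 3 ≤ k → (k : ℝ) ^ ε ≤ d → (k : ℝ) ^ ε ≤ m →
      d * logb 2 m ≤ k →
      (1 / 12) * (d * logb 2 m) ≤ logb 2 (maxOrder m d k) ∧
      logb 2 (maxOrder m d k) ≤ 153 * (1 + 1 / ε) * (1 + 2 / ε) * (d * logb 2 m)) ∧
    -- (4) colourings of `2 ^ (θ k)` vertices without monochromatic `K_k` need `d log (m k)` of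
    -- order `k`
    (∀ (V : Type) [Fintype V] (G : SimpleGraph V) (θ m : ℝ) (d k : ℕ), 0 < θ → 1 ≤ m → 1 ≤ d →
      2 ≤ k → NoMono G k → 2 ^ (θ * k) ≤ (Fintype.card V : ℝ) → FracVC G m d →
      θ * k ≤ 3000 * logb 2 (4 / θ) * (d * logb 2 (m * k))) ∧
    -- (5) the extremal colourings, on `R(k,k) - 1` vertices
    (∀ (n k : ℕ) (G : SimpleGraph (Fin n)), 4 ≤ k → n + 1 = ramsey k → NoMono G k →
      (∀ (m : ℝ) (d : ℕ), 1 ≤ m → 1 ≤ d → FracVC G m d → k ≤ 36000 * (d * logb 2 (m * k))) ∧
      (∀ m a : ℕ, 1 ≤ a → 2 * (k : ℝ) ≤ a * logb 2 m → UnionVC G m (6 * a))) ∧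
    -- (6) random relations which relate red pairs with probability at least `1 / m` and blue pairs
    -- with probability at most `(1 - 1 / g) / m`
    (∀ (V Ω : Type) [Fintype V] [Nonempty V] [Fintype Ω] [Nonempty Ω] (G : SimpleGraph V)
      (R : Ω → V → V → Prop) (d k g : ℕ) (m : ℝ), 2 ≤ k → 1 ≤ d → 1 ≤ m → 1 ≤ g → NoMono G k →
      (∀ ω, VCLe (R ω) d) →
      (∀ x y, G.Adj x y → 1 / m ≤ prob R x y ∨ 1 / m ≤ prob R y x) →
      (∀ x y, x ≠ y → ¬ G.Adj x y → prob R x y ≤ (1 - 1 / (g : ℝ)) / m) →
      logb 2 (Fintype.card V) ≤ 8000 * (g : ℝ) ^ 2 * d * logb 2 k ^ 3 * (1 + logb 2 (m * d))) := by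
  have hexp : ∀ (V : Type) [Fintype V] (G : SimpleGraph V) (θ m : ℝ) (d k : ℕ), 0 < θ → 1 ≤ m →
      1 ≤ d → 2 ≤ k → NoMono G k → 2 ^ (θ * k) ≤ (Fintype.card V : ℝ) → FracVC G m d →
      θ * k ≤ 3000 * logb 2 (4 / θ) * (d * logb 2 (m * k)) :=
    fun V _ G θ m d k hθ hm hd hk hG hn hF =>
      Pool.Agent.H700.RU.exponential G θ m d k hθ hm hd hk hG hn hF
  refine ⟨?_, ?_, ?_, ?_, hexp, ?_, ?_⟩
  · intro V _ _ G k d m hk hd hm hG hF
    obtain ⟨Ω, i1, i2, R, h1, h2, h3⟩ := hF
    exact Pool.Agent.H700.RU.frac_bound G R d k m hd hk hm h1 h2 h3 hG.1 hG.2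
  · intro V G m d hm h
    exact Pool.Agent.H700.RU.UnionVC.frac hm h
  · intro V _ G m a hm ha hn
    exact Pool.Agent.H700.RU.union_all G m a hm ha hn
  · intro ε m d k hε hm hd hk h1 h2 h3
    exact Pool.Agent.H700.RU.order_bounds ε hε m d k hm hd hk h1 h2 h3
  · intro n k G hk hn hG
    have hkr : (4 : ℝ) ≤ k := by exact_mod_cast hk
    have hE := Pool.Agent.H818R2.Ram.erdos_lower (k := k) (by omega)
    rw [← ramsey_eq, ← hn] at hE
    refine ⟨?_, ?_⟩
    · intro m d hm hd hF
      have hE' : ((2 : ℝ) ^ k) < ((n : ℝ) + 1) ^ 2 := by exact_mod_cast hE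
      have h1 : (2 : ℝ) ^ ((1 / 3 : ℝ) * k) ≤ (Fintype.card (Fin n) : ℝ) := by
        rw [Fintype.card_fin]
        by_contra hcon
        push Not at hcon
        obtain ⟨y, hy⟩ : ∃ y : ℝ, y = (2 : ℝ) ^ ((1 / 3 : ℝ) * k) := ⟨_, rfl⟩
        rw [← hy] at hcon
        have hy3 : y ^ 3 = 2 ^ k := by
          rw [hy, ← Real.rpow_natCast, ← Real.rpow_mul (by norm_num), ← Real.rpow_natCast]
          congr 1
          push_cast
          ring
        have hy0 : 0 < y := by
          rw [hy]
          positivity
        have hy2 : 2.5 ≤ y := by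
          by_contra hlt
          push Not at hlt
          have h2 : y ^ 3 < 2.5 ^ 3 := pow_lt_pow_left₀ hlt hy0.le (by norm_num)
          have h3 : (2 : ℝ) ^ 4 ≤ 2 ^ k := pow_le_pow_right₀ (by norm_num) hk
          rw [hy3] at h2
          norm_num at h2 h3
          linarith
        have hn0 : (0 : ℝ) ≤ n := Nat.cast_nonneg _
        have h2 : ((n : ℝ) + 1) ^ 2 < (y + 1) ^ 2 := by
          apply pow_lt_pow_left₀ (by linarith) (by linarith) (by norm_num)
        rw [← hy3] at hE'
        nlinarith [mul_nonneg hy0.le (sub_nonneg.2 hy2), mul_nonneg (mul_nonneg hy0.le hy0.le) (sub_nonneg.2 hy2)]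
      have h2 := hexp (Fin n) G (1 / 3) m d k (by norm_num) hm hd (by omega) hG h1 hF
      have h3 : logb 2 (4 / (1 / 3 : ℝ)) ≤ 4 := by
        rw [Real.logb_le_iff_le_rpow (by norm_num) (by norm_num)]
        norm_num
      have h4 : 0 ≤ d * logb 2 (m * k) := by
        apply mul_nonneg (Nat.cast_nonneg _)
        apply Real.logb_nonneg (by norm_num)
        nlinarith
      have h5 : 3000 * logb 2 (4 / (1 / 3 : ℝ)) * (d * logb 2 (m * k)) ≤
          12000 * (d * logb 2 (m * k)) := mul_le_mul_of_nonneg_right (by linarith) h4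
      linarith
    · intro m a ha h
      have hm : 1 ≤ m := by
        by_contra hcon
        have : m = 0 := by omega
        subst this
        simp at h
        linarith
      refine Pool.Agent.H700.RU.union_all G m a hm ha ?_
      classical
      have h1 := Pool.Agent.H700.RU.trivial_bound G k (by omega) hG.1 hG.2
      refine h1.trans ?_
      have hm0 : (0 : ℝ) < m := by exact_mod_cast hm
      have h2 : (4 : ℝ) ^ k ≤ (m : ℝ) ^ a := by
        have h3 : logb 2 ((4 : ℝ) ^ k) ≤ logb 2 ((m : ℝ) ^ a) := by
          rw [Real.logb_pow, Real.logb_pow]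
          have h5 : logb 2 (4 : ℝ) = 2 := by
            rw [show (4 : ℝ) = 2 ^ (2 : ℕ) by norm_num, Real.logb_pow]
            simp
          rw [h5]
          linarith
        exact (Real.logb_le_logb (by norm_num) (by positivity) (by positivity)).1 h3
      exact_mod_cast h2
  · intro V Ω _ _ _ _ G R d k g m hk hd hm hg hG hR hcov hblue
    exact Pool.Agent.H700.RU.gap_bound G R d k g m hd hk hm hg hR hblue hcov hG.1 hG.2

end Pool.Agent.Results.MP_28724c_co.UnionsOfBoundedVC
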